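import Pool.Agent.PLG.Stmts

/-!
Row BLA of the squad PLG (MP_1fc801_co): the lines of a block.
-/

set_option autoImplicit false

namespace Pool.Agent.PLG.H59

open Module Pool.Agent.PLG

theorem bs_le {E : Type} [NormedAddCommGroup E] {f : ℂ →+ E} {G : AddSubgroup ℂ}
    (h : Dsc f G) (t ρ : ℝ) : bs f (lp G t) ρ ≤ sp G ⊓ sl t := by
  unfold bs
  rw [Submodule.span_le]
  intro x hx
  have hx' := (mem_bl (h.lp t)).1 (Finset.mem_coe.1 hx)
  exact ⟨le_sp hx'.1.1, hx'.1.2⟩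

theorem bla : BlaStmt := by
  intro E _ _ f G W e ρ j B hb
  haveI := hb.fin
  have hle : ∀ t, bs f (lp G t) ρ ≤ sp G ⊓ sl t := fun t => bs_le hb.dsc t ρ
  have hfd : ∀ t, FiniteDimensional ℚ (sp G ⊓ sl t : Submodule ℚ ℂ) := fun t =>
    Submodule.finiteDimensional_inf_left _ _
  have hle' : ∀ t ∈ W, e ≤ finrank ℚ (sp G ⊓ sl t : Submodule ℚ ℂ) := by
    intro t ht
    haveI := hfd t
    have h1 := Submodule.finrank_mono (hle t)
    rw [hb.rank t ht] at h1
    exact h1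
  have hsum : ∀ s t : ℝ, s ≠ t →
      finrank ℚ ((sp G ⊓ sl s) ⊔ (sp G ⊓ sl t) : Submodule ℚ ℂ) =
        finrank ℚ (sp G ⊓ sl s : Submodule ℚ ℂ) + finrank ℚ (sp G ⊓ sl t : Submodule ℚ ℂ) := by
    intro s t hst
    haveI := hfd s
    haveI := hfd t
    have hdis : (sp G ⊓ sl s) ⊓ (sp G ⊓ sl t) = ⊥ := by
      rw [eq_bot_iff]
      intro x hx
      exact (Submodule.mem_bot ℚ).2 (eq_zero_of_slopes hst hx.1.2 hx.2.2)
    have h1 := Submodule.finrank_sup_add_finrank_inf_eq (sp G ⊓ sl s) (sp G ⊓ sl t)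
    rw [hdis, finrank_bot, add_zero] at h1
    exact h1
  have hsup : ∀ s t : ℝ, (sp G ⊓ sl s) ⊔ (sp G ⊓ sl t) ≤ sp G := fun s t =>
    sup_le inf_le_left inf_le_left
  have hB := hb.hB
  have hW : (2 : ℝ) ≤ W.card := by
    have h1 := hb.large
    linarith
  have hW' : 1 < W.card := by
    have h1 : 2 ≤ W.card := by exact_mod_cast hW
    omega
  have hfin : ∀ t ∈ W, finrank ℚ (sp G ⊓ sl t : Submodule ℚ ℂ) = e := by
    intro t ht
    obtain ⟨s, hs, hst⟩ := Finset.exists_mem_ne hW' t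
    have h1 := hle' t ht
    have h2 := hle' s hs
    have h3 := hsum s t hst
    have h4 := Submodule.finrank_mono (hsup s t)
    rw [hb.rk] at h4
    omega
  refine ⟨⟨hb.dsc, hb.hj, ?_, hb.lines, ?_⟩, ?_, ?_⟩
  · nlinarith
  · obtain ⟨a, b, h1, h2⟩ := hb.narrow
    refine ⟨a, b, h1, ?_⟩
    have h3 : 9 * B * (W.card : ℝ) * j ^ 2 = 9 * (B * W.card * j ^ 2) := by ring
    rw [h3]
    linarith
  · intro s hs t ht hst
    have h1 : (sp G ⊓ sl s) ⊔ (sp G ⊓ sl t) = sp G := by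
      refine Submodule.eq_of_le_of_finrank_eq (hsup s t) ?_
      rw [hsum s t hst, hfin s hs, hfin t ht, hb.rk]
      ring
    exact h1.ge
  · intro t ht
    haveI := hfd t
    refine ⟨?_, hfin t ht⟩
    refine (Submodule.eq_of_le_of_finrank_eq (hle t) ?_).symm
    rw [hb.rank t ht, hfin t ht]

end Pool.Agent.PLG.H59

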